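import Mathlib
import Pool.Agent.H10.RP.ALL

/-!
# The inequality `‖T ^ n‖_p ≤ n ^ (1 - 2/p) (p - 1)` for all real `p ≥ 2` and all large `n`

For every `P` there is `n₀` such that for all `n ≥ n₀`, all real `p` with `2 ≤ p ≤ P` and all Schwartz
functions `f` on the plane, the inequality of the question holds with its own constant.

Outline. (1) Three new cases of Pitt's inequality `∫ |F^|^p ≤ C ∫ |F|^p |u|^(2p-4)`, for `p = 12/5`, `3` and
`24/5`, with good constants: Stein interpolation, with a gain on the line of the even exponent 4 or 6 (there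
the integral over the vertical line is computed with complex powers and compared with a positive kernel),
an outer function on the other line, and the three lines lemma with the Poisson kernel of the strip.
(2) The localisation and square function machinery of the library development for even exponents, for real
exponents: if Pitt's inequality holds for the exponent `p` with the constant `A` then
`‖T ^ n‖_p ≤ (1 + o(1)) n ^ (1 - 2/p) A`. (3) The theorem of Riesz and Thorin between the nodes
`2, 12/5, 3, 4, 24/5, 6, 8, ...`.
-/

set_option autoImplicit false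

/-- For every real `P` there is `n₀` such that for all `n ≥ n₀`, all real `p ∈ [2, P]` and all Schwartz
functions `f`: `‖T ^ n f‖_p ≤ n ^ (1 - 2/p) (p - 1) ‖f‖_p`, where `T ^ n` is the Fourier multiplier with
symbol `(conj ξ / ξ) ^ n` (the literal form of the frozen statement). -/
theorem Pool.Agent.Results.MP_3dd6d4_an.EveryExponentLargeN.result :
    ∀ P : ℝ, ∃ n₀ : ℕ, ∀ n : ℕ, n₀ ≤ n → ∀ p : ℝ, 2 ≤ p → p ≤ P → ∀ f : SchwartzMap ℂ ℂ,
      MeasureTheory.eLpNorm
        (fun z : ℂ => ∫ ξ : ℂ,
          Complex.exp (2 * (Real.pi : ℂ) * Complex.I * ((z.re * ξ.re + z.im * ξ.im : ℝ) : ℂ)) *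
            ((starRingEnd ℂ ξ / ξ) ^ n *
              ∫ w : ℂ, Complex.exp (-(2 * (Real.pi : ℂ) * Complex.I *
                ((w.re * ξ.re + w.im * ξ.im : ℝ) : ℂ))) * f w))
        (ENNReal.ofReal p) MeasureTheory.volume
      ≤ ENNReal.ofReal ((n : ℝ) ^ (1 - 2 / p) * (p - 1)) *
        MeasureTheory.eLpNorm (fun z : ℂ => f z) (ENNReal.ofReal p) MeasureTheory.volume :=
  Pool.Agent.H10.RP.ALL.fin'
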